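import Pool.Agent.H34.GA.Targets1

/-!
Bound for the Hecke eigenvalues of a function which is not zero (board ga).
-/

set_option autoImplicit false

namespace Pool.Agent.H35.GA

open MeasureTheory Pool.Agent.H34.GM Pool.Agent.H34.GZ Pool.Agent.H34.GU Pool.Agent.H34.GA

theorem det_cR_LMA {m : ℕ} (α : ZM m) : (cR α).det = ((α.det : ℤ) : ℝ) := by
  have h := (Int.castRingHom ℝ).map_det α
  rw [show ((α.det : ℤ) : ℝ) = (Int.castRingHom ℝ) α.det from rfl, h]
  rfl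

theorem pf_LMA : T_TNZ → T_LMA := by
  intro hTNB m N _ T D hS F lam hF hN
  have hm := hS.one_le
  obtain ⟨M, hM⟩ := hF.bdd
  obtain ⟨C, hC0, hC⟩ := hTNB m hm
  set S : Set ℝ := {y | ∃ g x, g.det ≠ 0 ∧ y = ‖F g x‖} with hSdef
  have hbd : BddAbove S := by
    refine ⟨M, ?_⟩
    rintro y ⟨g, x, hg, rfl⟩
    exact hM g x hg
  obtain ⟨g0, x0, hg0, hF0⟩ := hN
  have hmem0 : ‖F g0 x0‖ ∈ S := ⟨g0, x0, hg0, rfl⟩
  have hpos : 0 < sSup S := lt_of_lt_of_le (norm_pos_iff.2 hF0) (le_csSup hbd hmem0)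
  obtain ⟨y, ⟨g, x, hg, rfl⟩, hy⟩ := exists_lt_of_lt_csSup ⟨_, hmem0⟩ (half_lt_self hpos)
  refine ⟨2 * C, by positivity, fun n hn => ?_⟩
  have h1 := hF.hecke n hn g x hg
  have h2 : ‖∑ α ∈ T n, F (cR α * g) (ac N α x)‖ ≤ ((T n).card : ℝ) * sSup S := by
    calc ‖∑ α ∈ T n, F (cR α * g) (ac N α x)‖ ≤ ∑ α ∈ T n, ‖F (cR α * g) (ac N α x)‖ :=
          norm_sum_le _ _
      _ ≤ ∑ _α ∈ T n, sSup S := by
          apply Finset.sum_le_sum
          intro α hα
          apply le_csSup hbd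
          refine ⟨cR α * g, ac N α x, ?_, rfl⟩
          have h3 := hS.reps.mem n hn α hα
          rw [Matrix.det_mul]
          apply mul_ne_zero _ hg
          rw [det_cR_LMA]
          intro h0
          have h4 : α.det = 0 := by exact_mod_cast h0
          rw [h4, Int.natAbs_zero] at h3
          omega
      _ = ((T n).card : ℝ) * sSup S := by rw [Finset.sum_const, nsmul_eq_mul]
  rw [h1, norm_mul] at h2
  have h4 := hC T hS.reps n hn
  set L := ‖(n : ℂ) ^ (((m : ℂ) - 1) / 2) * lam n‖ with hL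
  have hL0 : 0 ≤ L := norm_nonneg _
  have h5 : L * (sSup S / 2) ≤ C * (n : ℝ) ^ m * sSup S := by
    calc L * (sSup S / 2) ≤ L * ‖F g x‖ := mul_le_mul_of_nonneg_left hy.le hL0
      _ ≤ ((T n).card : ℝ) * sSup S := h2
      _ ≤ C * (n : ℝ) ^ m * sSup S := mul_le_mul_of_nonneg_right h4 hpos.le
  have h6 : L / 2 ≤ C * (n : ℝ) ^ m := by
    have : L / 2 * sSup S ≤ C * (n : ℝ) ^ m * sSup S := by linarith [h5]
    exact le_of_mul_le_mul_right this hpos
  linarith

end Pool.Agent.H35.GA
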